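import Mathlib

/-!
Functions on the upper half plane represented by q-series.
-/

namespace Pool.Agent.H34.Miller

open UpperHalfPlane hiding I
open Complex Function Filter Metric
open scoped Real MatrixGroups Topology Manifold

/-- `f` is represented on the upper half plane by the q-series with coefficients `p`. -/
def Rep (f : ℍ → ℂ) (p : PowerSeries ℂ) : Prop :=
  ∀ τ : ℍ, HasSum (fun n : ℕ => p.coeff n * Periodic.qParam 1 τ ^ n) (f τ)

lemma norm_q_lt_one (τ : ℍ) : ‖Periodic.qParam 1 (τ : ℂ)‖ < 1 :=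
  Periodic.norm_qParam_lt_one one_pos τ.im_pos

lemma exists_tau (q : ℂ) (hq : ‖q‖ < 1) (hq0 : q ≠ 0) : ∃ τ : ℍ, Periodic.qParam 1 (τ : ℂ) = q := by
  have h1 := Periodic.im_invQParam_pos_of_norm_lt_one one_pos hq hq0
  exact ⟨⟨Periodic.invQParam 1 q, h1⟩, Periodic.qParam_right_inv one_ne_zero hq0⟩

lemma Rep.summable {f : ℍ → ℂ} {p : PowerSeries ℂ} (h : Rep f p) (q : ℂ) (hq : ‖q‖ < 1) :
    Summable (fun n : ℕ => p.coeff n * q ^ n) := by
  by_cases hq0 : q = 0
  · subst hq0
    apply summable_of_ne_finset_zero (s := {0})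
    intro n hn
    rw [Finset.mem_singleton] at hn
    rw [zero_pow hn, mul_zero]
  · obtain ⟨τ, rfl⟩ := exists_tau q hq hq0
    exact (h τ).summable

lemma Rep.add {f g : ℍ → ℂ} {p p' : PowerSeries ℂ} (hf : Rep f p) (hg : Rep g p') :
    Rep (f + g) (p + p') := by
  intro τ
  have := (hf τ).add (hg τ)
  convert! this using 1
  ext n
  rw [map_add, add_mul]

lemma Rep.smul {f : ℍ → ℂ} {p : PowerSeries ℂ} (c : ℂ) (hf : Rep f p) :
    Rep (c • f) (c • p) := by
  intro τ
  have := (hf τ).mul_left c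
  convert! this using 1
  ext n
  rw [PowerSeries.coeff_smul, smul_eq_mul, mul_assoc]

lemma Rep.sub {f g : ℍ → ℂ} {p p' : PowerSeries ℂ} (hf : Rep f p) (hg : Rep g p') :
    Rep (f - g) (p - p') := by
  intro τ
  have := (hf τ).sub (hg τ)
  convert! this using 1
  ext n
  rw [map_sub, sub_mul]

lemma Rep.mul {f g : ℍ → ℂ} {p p' : PowerSeries ℂ} (hf : Rep f p) (hg : Rep g p') :
    Rep (f * g) (p * p') := by
  intro τ
  have h1 := (hf τ).summable.norm
  have h2 := (hg τ).summable.norm
  have h3 := tsum_mul_tsum_eq_tsum_sum_antidiagonal_of_summable_norm h1 h2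
  have h4 := (summable_norm_sum_mul_antidiagonal_of_summable_norm h1 h2).of_norm
  rw [(hf τ).tsum_eq, (hg τ).tsum_eq] at h3
  have h5 := h4.hasSum
  rw [← h3] at h5
  convert! h5 using 1
  ext n
  rw [PowerSeries.coeff_mul, Finset.sum_mul]
  apply Finset.sum_congr rfl
  intro kl hkl
  rw [Finset.HasAntidiagonal.mem_antidiagonal] at hkl
  rw [← hkl, pow_add]
  ring

/-- The sum function is given by a power series on the unit ball. -/
lemma hasFPS (p : PowerSeries ℂ) (hs : ∀ q : ℂ, ‖q‖ < 1 → Summable (fun n : ℕ => p.coeff n * q ^ n)) :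
    HasFPowerSeriesOnBall (fun q : ℂ => ∑' n : ℕ, p.coeff n * q ^ n)
      (FormalMultilinearSeries.ofScalars ℂ (fun n => p.coeff n)) 0 1 := by
  constructor
  · refine le_of_forall_lt_imp_le_of_dense fun r hr ↦ ?_
    lift r to NNReal using hr.ne_top
    have : FiniteDimensional ℝ ℂ := basisOneI.finiteDimensional_of_finite
    apply FormalMultilinearSeries.le_radius_of_summable
    have h1 := (hs (r : ℂ) (by simpa using hr)).norm
    simpa [smul_eq_mul, norm_mul, mul_comm, mul_left_comm, mul_assoc] using h1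
  · simp
  · intro y hy
    rw [← ENNReal.coe_one, Metric.eball_coe, NNReal.coe_one, mem_ball_zero_iff] at hy
    have := (hs y hy).hasSum
    simpa [mul_comm] using this

lemma Rep.unique {f : ℍ → ℂ} {p p' : PowerSeries ℂ} (hf : Rep f p) (hf' : Rep f p') : p = p' := by
  have h1 := (hasFPS p hf.summable).hasFPowerSeriesAt
  have h2 := (hasFPS p' hf'.summable).hasFPowerSeriesAt
  -- the two functions agree on the punctured ball
  have heq : ∀ q : ℂ, ‖q‖ < 1 → q ≠ 0 →
      (∑' n : ℕ, p.coeff n * q ^ n) = ∑' n : ℕ, p'.coeff n * q ^ n := by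
    intro q hq hq0
    obtain ⟨τ, rfl⟩ := exists_tau q hq hq0
    rw [(hf τ).tsum_eq, (hf' τ).tsum_eq]
  have hev : (fun q : ℂ => ∑' n : ℕ, p.coeff n * q ^ n) =ᶠ[𝓝[≠] 0]
      (fun q : ℂ => ∑' n : ℕ, p'.coeff n * q ^ n) := by
    have h3 : ball (0 : ℂ) 1 ∈ 𝓝[≠] (0 : ℂ) := mem_nhdsWithin_of_mem_nhds (ball_mem_nhds _ one_pos)
    filter_upwards [h3, self_mem_nhdsWithin] with q hq hq0
    exact heq q (by simpa using hq) hq0
  have hev2 := (h1.continuousAt.eventuallyEq_nhds_iff_eventuallyEq_nhdsNE h2.continuousAt).1 hev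
  have h3 := h1.congr hev2
  have h4 := h3.eq_formalMultilinearSeries h2
  ext n
  have h5 := congrArg (fun s => FormalMultilinearSeries.coeff s n) h4
  simpa [FormalMultilinearSeries.coeff_ofScalars] using h5

/-- The operator `q d/dq` on power series. -/
noncomputable def theta (p : PowerSeries ℂ) : PowerSeries ℂ :=
  PowerSeries.mk (fun n => (n : ℂ) * p.coeff n)

@[simp] lemma theta_coeff (p : PowerSeries ℂ) (n : ℕ) : (theta p).coeff n = (n : ℂ) * p.coeff n := by
  simp [theta]

lemma theta_add (p p' : PowerSeries ℂ) : theta (p + p') = theta p + theta p' := by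
  ext n; simp [mul_add]

lemma theta_smul (c : ℂ) (p : PowerSeries ℂ) : theta (c • p) = c • theta p := by
  ext n; simp; ring

lemma theta_mul (p p' : PowerSeries ℂ) : theta (p * p') = theta p * p' + p * theta p' := by
  ext n
  simp only [theta_coeff, map_add, PowerSeries.coeff_mul, Finset.mul_sum]
  rw [← Finset.sum_add_distrib]
  apply Finset.sum_congr rfl
  intro kl hkl
  rw [Finset.HasAntidiagonal.mem_antidiagonal] at hkl
  rw [← hkl]
  push_cast
  ring

/-- Termwise differentiation. -/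
lemma Rep.deriv {f : ℍ → ℂ} {p : PowerSeries ℂ} (hf : Rep f p) :
    Rep (Derivative.normalizedDerivOfComplex f) (theta p) := by
  set g : ℂ → ℂ := fun q : ℂ => ∑' n : ℕ, p.coeff n * q ^ n with hg
  have hfps := hasFPS p hf.summable
  rw [← hg] at hfps
  have hdiff : DifferentiableOn ℂ g (ball 0 1) := by
    have := hfps.differentiableOn
    rwa [← ENNReal.coe_one, Metric.eball_coe, NNReal.coe_one] at this
  -- Taylor coefficients
  have hcoef : ∀ n : ℕ, p.coeff n = ((n.factorial : ℂ))⁻¹ * iteratedDeriv n g 0 := by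
    intro n
    have h1 := hfps.hasFPowerSeriesAt
    have h2 := hfps.analyticAt.hasFPowerSeriesAt
    have h3 := h1.eq_formalMultilinearSeries h2
    have h5 := congrArg (fun s => FormalMultilinearSeries.coeff s n) h3
    simpa [FormalMultilinearSeries.coeff_ofScalars, div_eq_mul_inv, mul_comm] using h5
  have hdiff' : DifferentiableOn ℂ (_root_.deriv g) (ball 0 1) := hdiff.deriv isOpen_ball
  intro τ
  set q : ℂ := Periodic.qParam 1 (τ : ℂ) with hq
  have hq1 : ‖q‖ < 1 := norm_q_lt_one τ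
  have hqball : q ∈ ball (0 : ℂ) 1 := by simpa using hq1
  -- derivative of the q parameter
  have hqd : HasDerivAt (fun z : ℂ => Periodic.qParam 1 z) (2 * π * Complex.I * q) (τ : ℂ) := by
    have h1 : HasDerivAt (fun z : ℂ => 2 * π * Complex.I * z / ((1 : ℝ) : ℂ)) (2 * π * Complex.I) (τ : ℂ) := by
      have := ((hasDerivAt_id (τ : ℂ)).const_mul (2 * π * Complex.I)).div_const ((1 : ℝ) : ℂ)
      simpa using this
    have h2 := h1.cexp
    have h3 : cexp (2 * π * Complex.I * (τ : ℂ) / ((1 : ℝ) : ℂ)) * (2 * π * Complex.I) = 2 * π * Complex.I * q := by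
      rw [hq, Periodic.qParam]; ring
    rw [h3] at h2
    exact h2
  have hgd : HasDerivAt g (_root_.deriv g q) q :=
    (hdiff.differentiableAt (isOpen_ball.mem_nhds hqball)).hasDerivAt
  have hgd' : HasDerivAt g (_root_.deriv g q) ((fun z : ℂ => Periodic.qParam 1 z) (τ : ℂ)) := hgd
  have hcomp : HasDerivAt (fun z : ℂ => g (Periodic.qParam 1 z)) (_root_.deriv g q * (2 * π * Complex.I * q)) (τ : ℂ) :=
    HasDerivAt.comp (h₂ := g) (h := fun z : ℂ => Periodic.qParam 1 z) (τ : ℂ) hgd' hqd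
  have heq : (f ∘ ofComplex) =ᶠ[𝓝 (τ : ℂ)] (fun z : ℂ => g (Periodic.qParam 1 z)) := by
    filter_upwards [isOpen_upperHalfPlaneSet.mem_nhds τ.im_pos] with w hw
    have h1 : ofComplex w = (⟨w, hw⟩ : ℍ) := ofComplex_apply_of_im_pos hw
    rw [Function.comp_apply, h1, hg]
    exact ((hf ⟨w, hw⟩).tsum_eq).symm
  have hD : Derivative.normalizedDerivOfComplex f τ = q * _root_.deriv g q := by
    rw [Derivative.normalizedDerivOfComplex, heq.deriv_eq, hcomp.deriv]
    have : (2 * π * Complex.I : ℂ) ≠ 0 := two_pi_I_ne_zero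
    field_simp
  rw [hD]
  -- Taylor expansion of the derivative
  have h1 := hasSum_taylorSeries_on_ball (c := (0 : ℂ)) (r := 1) hdiff' (z := q) (by simpa using hq1)
  have h2 := h1.mul_left q
  have h3 : HasSum (fun n : ℕ => (theta p).coeff (n + 1) * q ^ (n + 1)) (q * _root_.deriv g q) := by
    convert! h2 using 1
    ext n
    rw [theta_coeff, hcoef (n + 1), iteratedDeriv_succ', sub_zero, smul_eq_mul, smul_eq_mul,
      Nat.factorial_succ]
    have h4 : ((n.factorial : ℂ)) ≠ 0 := by exact_mod_cast Nat.factorial_ne_zero n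
    have h5 : ((n : ℂ) + 1) ≠ 0 := by exact_mod_cast Nat.succ_ne_zero n
    push_cast
    field_simp
    ring
  rw [← hasSum_nat_add_iff' 1]
  simpa using h3

end Pool.Agent.H34.Miller
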