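import Mathlib
import Pool.Agent.H34.Miller.Rep

/-!
Level one modular forms: structure and differential identities.
-/

namespace Pool.Agent.H34.Miller

open UpperHalfPlane hiding I
open Complex Function Filter Metric ModularForm EisensteinSeries
open scoped Real MatrixGroups Topology Manifold

/-- A function that is a level one modular form of weight `k`. -/
def IsMF (k : ℤ) (f : ℍ → ℂ) : Prop := ∃ F : ModularForm 𝒮ℒ k, (F : ℍ → ℂ) = f

lemma IsMF.cast {k k' : ℤ} {f : ℍ → ℂ} (h : IsMF k f) (hk : k = k') : IsMF k' f := by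
  subst hk; exact h

lemma IsMF.mul {k k' : ℤ} {f g : ℍ → ℂ} (hf : IsMF k f) (hg : IsMF k' g) : IsMF (k + k') (f * g) := by
  obtain ⟨F, rfl⟩ := hf
  obtain ⟨G, rfl⟩ := hg
  exact ⟨F.mul G, rfl⟩

lemma IsMF.add {k : ℤ} {f g : ℍ → ℂ} (hf : IsMF k f) (hg : IsMF k g) : IsMF k (f + g) := by
  obtain ⟨F, rfl⟩ := hf
  obtain ⟨G, rfl⟩ := hg
  exact ⟨F + G, rfl⟩

lemma IsMF.sub {k : ℤ} {f g : ℍ → ℂ} (hf : IsMF k f) (hg : IsMF k g) : IsMF k (f - g) := by
  obtain ⟨F, rfl⟩ := hf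
  obtain ⟨G, rfl⟩ := hg
  exact ⟨F - G, rfl⟩

lemma IsMF.smul {k : ℤ} {f : ℍ → ℂ} (c : ℂ) (hf : IsMF k f) : IsMF k (c • f) := by
  obtain ⟨F, rfl⟩ := hf
  exact ⟨c • F, rfl⟩

lemma IsMF.zero (k : ℤ) : IsMF k 0 := ⟨0, rfl⟩

lemma IsMF.one : IsMF 0 1 := ⟨1, rfl⟩

lemma IsMF.pow {k : ℤ} {f : ℍ → ℂ} (hf : IsMF k f) (n : ℕ) : IsMF (n * k) (f ^ n) := by
  induction n with
  | zero => rw [pow_zero]; exact IsMF.one.cast (by simp)
  | succ n ih => rw [pow_succ]; exact (ih.mul hf).cast (by push_cast; ring)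

lemma IsMF.sum {k : ℤ} {ι : Type*} (s : Finset ι) (f : ι → ℍ → ℂ) (h : ∀ i ∈ s, IsMF k (f i)) :
    IsMF k (∑ i ∈ s, f i) := by
  classical
  induction s using Finset.induction_on with
  | empty => rw [Finset.sum_empty]; exact IsMF.zero k
  | insert a s ha ih =>
    rw [Finset.sum_insert ha]
    exact (h a (Finset.mem_insert_self a s)).add (ih (fun i hi => h i (Finset.mem_insert_of_mem hi)))

lemma isMF_E4 : IsMF 4 (E₄ : ℍ → ℂ) := ⟨E₄, rfl⟩
lemma isMF_E6 : IsMF 6 (E₆ : ℍ → ℂ) := ⟨E₆, rfl⟩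

lemma isMF_discriminant : IsMF 12 (ModularForm.discriminant) :=
  ⟨(CuspForm.discriminant : ModularForm 𝒮ℒ 12), rfl⟩

lemma IsMF.rep {k : ℤ} {f : ℍ → ℂ} (hf : IsMF k f) : Rep f (qExpansion 1 f) := by
  obtain ⟨F, rfl⟩ := hf
  intro τ
  exact ModularForm.hasSum_qExpansion F one_pos one_mem_strictPeriods_SL τ

lemma IsMF.qExpansion_eq {k : ℤ} {f : ℍ → ℂ} (hf : IsMF k f) {p : PowerSeries ℂ} (h : Rep f p) :
    qExpansion 1 f = p := hf.rep.unique h

/-- The q-series of `E₄`, `E₆`, `E₂` and `Δ`. -/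
noncomputable def e4 : PowerSeries ℂ := qExpansion 1 (E₄ : ℍ → ℂ)
noncomputable def e6 : PowerSeries ℂ := qExpansion 1 (E₆ : ℍ → ℂ)
noncomputable def dd : PowerSeries ℂ := qExpansion 1 (ModularForm.discriminant)
noncomputable def e2 : PowerSeries ℂ :=
  PowerSeries.mk (fun m => if m = 0 then 1 else -24 * (ArithmeticFunction.sigma 1 m : ℂ))

lemma rep_e4 : Rep (E₄ : ℍ → ℂ) e4 := isMF_E4.rep
lemma rep_e6 : Rep (E₆ : ℍ → ℂ) e6 := isMF_E6.rep
lemma rep_dd : Rep ModularForm.discriminant dd := isMF_discriminant.rep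
lemma rep_e2 : Rep E2 e2 := by
  intro τ
  have := hasSum_qExpansion_E2 (z := τ)
  simpa [e2, Periodic.qParam] using this

lemma e4_coeff (m : ℕ) : e4.coeff m = if m = 0 then 1 else 240 * (ArithmeticFunction.sigma 3 m : ℂ) := by
  rw [e4, E_qExpansion_coeff _ ⟨2, rfl⟩]
  have : bernoulli 4 = -1 / 30 := by decide +kernel
  rw [this]
  split_ifs with h
  · rfl
  · norm_num

lemma e6_coeff (m : ℕ) : e6.coeff m = if m = 0 then 1 else -504 * (ArithmeticFunction.sigma 5 m : ℂ) := by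
  rw [e6, E_qExpansion_coeff _ ⟨3, rfl⟩]
  have : bernoulli 6 = 1 / 42 := by decide +kernel
  rw [this]
  split_ifs with h
  · rfl
  · norm_num

lemma dd_coeff_zero : dd.coeff 0 = 0 := by
  have := CuspFormClass.qExpansion_coeff_zero CuspForm.discriminant one_pos one_mem_strictPeriods_SL
  simpa [dd] using this

lemma dd_coeff_one : dd.coeff 1 = 1 := discriminant_qExpansion_coeff_one

lemma discriminant_apply (z : ℍ) : ModularForm.discriminant z = ModularForm.eta (z : ℂ) ^ 24 := by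
  rw [ModularForm.discriminant]

/-- `DΔ = E₂ Δ`. -/
lemma D_discriminant : Derivative.normalizedDerivOfComplex ModularForm.discriminant
    = E2 * ModularForm.discriminant := by
  ext z
  have hz : (z : ℂ) ∈ upperHalfPlaneSet := z.2
  have hdiff := differentiableAt_eta_of_mem_upperHalfPlaneSet hz
  have heq : (ModularForm.discriminant ∘ ofComplex) =ᶠ[𝓝 (z : ℂ)] (fun w : ℂ => ModularForm.eta w ^ 24) := by
    filter_upwards [isOpen_upperHalfPlaneSet.mem_nhds z.2] with w hw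
    have h1 : ofComplex w = (⟨w, hw⟩ : ℍ) := ofComplex_apply_of_im_pos hw
    rw [Function.comp_apply, h1, discriminant_apply]
  have h1 := logDeriv_eta_eq_E2 z
  rw [logDeriv_apply, div_eq_iff (eta_ne_zero hz)] at h1
  have h2 : deriv (fun w : ℂ => ModularForm.eta w ^ 24) (z : ℂ)
      = 24 * ModularForm.eta (z : ℂ) ^ 23 * deriv ModularForm.eta (z : ℂ) := by
    have := (hdiff.hasDerivAt.fun_pow 24).deriv
    rw [this]
    norm_num
  rw [Derivative.normalizedDerivOfComplex, heq.deriv_eq, h2, h1, Pi.mul_apply, discriminant_apply]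
  generalize ModularForm.eta (z : ℂ) = y
  generalize E2 z = e
  have h4 : (2 * π * Complex.I : ℂ) ≠ 0 := two_pi_I_ne_zero
  have h5 : (π : ℂ) ≠ 0 := by exact_mod_cast Real.pi_ne_zero
  have h6 : Complex.I ≠ 0 := I_ne_zero
  field_simp
  ring

lemma theta_dd : theta dd = e2 * dd := by
  have h1 : Rep (Derivative.normalizedDerivOfComplex ModularForm.discriminant) (theta dd) := rep_dd.deriv
  rw [D_discriminant] at h1
  exact h1.unique (rep_e2.mul rep_dd)

/-- One dimensional spaces. -/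
lemma one_dim (k : ℕ) (hk : Even k) (hdim : (if k ≡ 2 [MOD 12] then k / 12 else k / 12 + 1) = 1)
    (f g : ℍ → ℂ) (hf : IsMF k f) (hg : IsMF k g) (hg0 : g ≠ 0) : ∃ c : ℂ, f = c • g := by
  obtain ⟨F, rfl⟩ := hf
  obtain ⟨G, rfl⟩ := hg
  have h1 := dimension_level_one k hk
  have h2 : Module.rank ℂ (ModularForm 𝒮ℒ (k : ℤ)) = 1 := by
    rw [h1]; exact_mod_cast hdim
  have h3 : G ≠ 0 := by
    intro h; apply hg0; rw [h]; rfl
  obtain ⟨c, hc⟩ := (finrank_eq_one_iff_of_nonzero' G h3).1 (Module.rank_eq_one_iff_finrank_eq_one.1 h2) F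
  exact ⟨c, by rw [← hc]; rfl⟩

end Pool.Agent.H34.Miller
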