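import Mathlib
import Pool.Agent.H34.Miller.Forms

/-!
The Serre derivative of a level one form, and Ramanujan's formula for `E₆`.
-/

namespace Pool.Agent.H34.Miller

open UpperHalfPlane hiding I
open Complex Function Filter Metric ModularForm EisensteinSeries
open scoped Real MatrixGroups Topology Manifold

lemma rep_serre {k : ℤ} (f : ModularForm 𝒮ℒ k) :
    Rep (Derivative.serreDerivative (k : ℂ) f)
      (theta (qExpansion 1 f) - ((k : ℂ) * 12⁻¹) • (e2 * qExpansion 1 f)) := by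
  have hf : Rep f (qExpansion 1 f) := IsMF.rep ⟨f, rfl⟩
  have h1 := hf.deriv.sub ((rep_e2.mul hf).smul ((k : ℂ) * 12⁻¹))
  convert! h1 using 1
  ext z
  simp only [Derivative.serreDerivative_apply, Pi.sub_apply, Pi.smul_apply, Pi.mul_apply, smul_eq_mul]
  ring

lemma isMF_serre {k : ℤ} (f : ModularForm 𝒮ℒ k) :
    IsMF (k + 2) (Derivative.serreDerivative (k : ℂ) f) := by
  have hinv : ∀ γ : SL(2, ℤ), Derivative.serreDerivative (k : ℂ) f ∣[k + 2] γ
      = Derivative.serreDerivative (k : ℂ) f := by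
    intro γ
    exact Derivative.serreDerivative_slash_invariant f.holo' (f.slash_action_eq' _ ⟨γ, rfl⟩)
  refine ⟨{ toFun := Derivative.serreDerivative (k : ℂ) f
            slash_action_eq' := ?_
            holo' := ?_
            bdd_at_cusps' := ?_ }, rfl⟩
  · intro A hA
    obtain ⟨A, rfl⟩ := hA
    exact hinv A
  · exact Derivative.serreDerivative_mdifferentiable _ f.holo'
  · intro c hc
    rw [Subgroup.IsArithmetic.isCusp_iff_isCusp_SL2Z] at hc
    rw [OnePoint.isBoundedAt_iff_forall_SL2Z hc]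
    intro γ _
    rw [hinv γ]
    exact isBoundedAtImInfty_of_hasSum_qExpansion one_pos (rep_serre f)

lemma isMF_E4sq : IsMF (8 : ℕ) ((E₄ : ℍ → ℂ) ^ 2) := (isMF_E4.pow 2).cast (by norm_num)

lemma rep_E4sq : Rep ((E₄ : ℍ → ℂ) ^ 2) (e4 ^ 2) := by
  rw [pow_two, pow_two]; exact rep_e4.mul rep_e4

lemma e4_cc : PowerSeries.constantCoeff e4 = 1 := by
  rw [← PowerSeries.coeff_zero_eq_constantCoeff_apply, e4_coeff]; simp
lemma e6_cc : PowerSeries.constantCoeff e6 = 1 := by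
  rw [← PowerSeries.coeff_zero_eq_constantCoeff_apply, e6_coeff]; simp
lemma e2_cc : PowerSeries.constantCoeff e2 = 1 := by
  rw [← PowerSeries.coeff_zero_eq_constantCoeff_apply]; simp [e2]
lemma theta_cc (p : PowerSeries ℂ) : PowerSeries.constantCoeff (theta p) = 0 := by
  rw [← PowerSeries.coeff_zero_eq_constantCoeff_apply]; simp

lemma E4sq_ne_zero : (E₄ : ℍ → ℂ) ^ 2 ≠ 0 := by
  intro h
  have h1 := rep_E4sq
  rw [h] at h1
  have h2 : Rep (0 : ℍ → ℂ) 0 := by
    intro τ; simp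
  have h3 := h1.unique h2
  have h4 := congrArg PowerSeries.constantCoeff h3
  rw [map_pow, e4_cc, map_zero] at h4
  norm_num at h4

/-- Ramanujan's formula for the derivative of `E₆`. -/
lemma theta_e6 : theta e6 = (2 : ℂ)⁻¹ • (e2 * e6) - (2 : ℂ)⁻¹ • e4 ^ 2 := by
  have h1 : IsMF (8 : ℕ) (Derivative.serreDerivative ((6 : ℤ) : ℂ) (E₆ : ℍ → ℂ)) :=
    (isMF_serre E₆).cast (by norm_num)
  obtain ⟨c, hc⟩ := one_dim 8 ⟨4, rfl⟩ (by simp [Nat.ModEq]) _ _ h1 isMF_E4sq E4sq_ne_zero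
  have h2 := rep_serre E₆
  rw [hc] at h2
  have h3 := h2.unique (rep_E4sq.smul c)
  have hce6 : qExpansion 1 (E₆ : ℍ → ℂ) = e6 := rfl
  rw [hce6] at h3
  have h4 := congrArg PowerSeries.constantCoeff h3
  rw [map_sub, theta_cc, PowerSeries.constantCoeff_smul, PowerSeries.constantCoeff_smul, map_mul,
    map_pow, e4_cc, e6_cc, e2_cc] at h4
  have hc2 : c = -(2 : ℂ)⁻¹ := by
    rw [smul_eq_mul, smul_eq_mul] at h4
    norm_num at h4
    rw [← h4]
    norm_num
  rw [hc2] at h3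
  have h5 : theta e6 = ((((6 : ℤ) : ℂ)) * 12⁻¹) • (e2 * e6) + (-(2 : ℂ)⁻¹) • e4 ^ 2 := by
    rw [← h3]; abel
  rw [h5, _root_.neg_smul, ← sub_eq_add_neg]
  congr 2
  norm_num

end Pool.Agent.H34.Miller
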