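import Mathlib
import Pool.Agent.H34.Miller.Serre

/-!
Power series algebra: positivity and coefficient extraction.
-/

namespace Pool.Agent.H34.Miller

open PowerSeries
open scoped ComplexOrder

/-- Nonnegative coefficients. -/
def NN (p : PowerSeries ℂ) : Prop := ∀ n, 0 ≤ coeff n p

/-- Positive coefficients. -/
def PP (p : PowerSeries ℂ) : Prop := ∀ n, 0 < coeff n p

lemma PP.nn {p : PowerSeries ℂ} (h : PP p) : NN p := fun n => (h n).le

lemma NN.one : NN 1 := by
  intro n
  rw [coeff_one]
  split_ifs
  · exact zero_le_one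
  · exact le_refl _

lemma NN.mul {p q : PowerSeries ℂ} (hp : NN p) (hq : NN q) : NN (p * q) := by
  intro n
  rw [coeff_mul]
  exact Finset.sum_nonneg (fun kl _ => mul_nonneg (hp _) (hq _))

lemma NN.pow {p : PowerSeries ℂ} (hp : NN p) (n : ℕ) : NN (p ^ n) := by
  induction n with
  | zero => rw [pow_zero]; exact NN.one
  | succ n ih => rw [pow_succ]; exact ih.mul hp

lemma PP.mul_nn {p q : PowerSeries ℂ} (hp : PP p) (hq : NN q) (hq0 : 0 < coeff 0 q) : PP (p * q) := by
  intro n
  rw [coeff_mul]
  apply Finset.sum_pos'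
  · exact fun kl _ => mul_nonneg (hp _).le (hq _)
  · exact ⟨(n, 0), by simp, mul_pos (hp n) hq0⟩

lemma PP.pow {p : PowerSeries ℂ} (hp : PP p) (n : ℕ) (hn : n ≠ 0) : PP (p ^ n) := by
  obtain ⟨m, rfl⟩ := Nat.exists_eq_succ_of_ne_zero hn
  induction m with
  | zero => simpa using hp
  | succ m ih =>
    rw [pow_succ]
    exact (ih (Nat.succ_ne_zero m)).mul_nn hp.nn (hp 0)

/-- `Δ/q`. -/
noncomputable def aA : PowerSeries ℂ := PowerSeries.mk (fun n => coeff (n + 1) dd)
/-- `(Δ/q)⁻¹`. -/
noncomputable def bB : PowerSeries ℂ := aA⁻¹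
/-- `1/E₆`. -/
noncomputable def cC : PowerSeries ℂ := e6⁻¹

lemma X_mul_aA : X * aA = dd := by
  ext n
  cases n with
  | zero => rw [coeff_zero_X_mul, dd_coeff_zero]
  | succ n => rw [coeff_succ_X_mul, aA, coeff_mk]

lemma aA_cc : constantCoeff aA = 1 := by
  rw [← coeff_zero_eq_constantCoeff_apply, aA, coeff_mk, dd_coeff_one]

lemma aA_mul_bB : aA * bB = 1 := PowerSeries.mul_inv_cancel _ (by rw [aA_cc]; exact one_ne_zero)

lemma e6_mul_cC : e6 * cC = 1 := PowerSeries.mul_inv_cancel _ (by rw [e6_cc]; exact one_ne_zero)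

lemma bB_cc : constantCoeff bB = 1 := by
  have h := congrArg constantCoeff aA_mul_bB
  rw [map_mul, aA_cc, one_mul, map_one] at h
  exact h

lemma cC_cc : constantCoeff cC = 1 := by
  have h := congrArg constantCoeff e6_mul_cC
  rw [map_mul, e6_cc, one_mul, map_one] at h
  exact h

lemma theta_X : theta (X : PowerSeries ℂ) = X := by
  ext n
  rw [theta_coeff, coeff_X]
  split_ifs with h
  · subst h; simp
  · simp

lemma theta_one : theta (1 : PowerSeries ℂ) = 0 := by
  ext n
  rw [theta_coeff, coeff_one]
  split_ifs with h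
  · subst h; simp
  · simp

lemma theta_aA : theta aA = (e2 - 1) * aA := by
  have h1 := theta_dd
  rw [← X_mul_aA, theta_mul, theta_X] at h1
  have h2 : X * (theta aA) = X * ((e2 - 1) * aA) := by linear_combination h1
  exact mul_left_cancel₀ X_ne_zero h2

lemma theta_inv_of_mul_eq_one {u v : PowerSeries ℂ} (h : u * v = 1) : theta v = -(theta u * v ^ 2) := by
  have h1 := congrArg theta h
  rw [theta_mul, theta_one] at h1
  linear_combination v * h1 - theta v * h

lemma theta_bB : theta bB = (1 - e2) * bB := by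
  rw [theta_inv_of_mul_eq_one aA_mul_bB, theta_aA]
  linear_combination ((1 - e2) * bB) * aA_mul_bB

lemma theta_cC : theta cC = -(theta e6 * cC ^ 2) := theta_inv_of_mul_eq_one e6_mul_cC

lemma bB_pos : PP bB := by
  intro n
  induction n using Nat.strong_induction_on with
  | _ n ih =>
    rcases Nat.eq_zero_or_pos n with hn | hn
    · subst hn
      rw [coeff_zero_eq_constantCoeff_apply, bB_cc]
      exact one_pos
    · have h1 := congrArg (coeff n) theta_bB
      rw [theta_coeff, coeff_mul] at h1
      have hnC : (0 : ℂ) < (n : ℂ) := by exact_mod_cast hn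
      have h2 : 0 < ∑ kl ∈ Finset.HasAntidiagonal.antidiagonal n, coeff kl.1 (1 - e2) * coeff kl.2 bB := by
        have hnn : ∀ k, 0 ≤ coeff k (1 - e2) := by
          intro k
          rw [map_sub, coeff_one, e2, coeff_mk]
          split_ifs
          · simp
          · rw [zero_sub, neg_mul, neg_neg]
            positivity
        apply Finset.sum_pos'
        · rintro ⟨k, l⟩ hkl
          rw [Finset.HasAntidiagonal.mem_antidiagonal] at hkl
          simp only at hkl ⊢
          rcases Nat.eq_zero_or_pos k with hk | hk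
          · subst hk
            have : coeff 0 (1 - e2) = 0 := by
              rw [map_sub, coeff_one, e2, coeff_mk]; simp
            rw [this, zero_mul]
          · exact mul_nonneg (hnn k) (ih l (by omega)).le
        · refine ⟨(n, 0), by simp, ?_⟩
          simp only
          apply mul_pos
          · rw [map_sub, coeff_one, e2, coeff_mk, if_neg hn.ne', if_neg hn.ne', zero_sub, neg_mul, neg_neg]
            apply mul_pos (by norm_num)
            have : 0 < ArithmeticFunction.sigma 1 n := by
              rw [ArithmeticFunction.sigma_pos_iff]; exact hn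
            exact_mod_cast this
          · exact ih 0 hn
      rw [← h1] at h2
      exact (pos_iff_pos_of_mul_pos h2).1 hnC

/-- inverse of `1 - (nonnegative)`. -/
lemma nn_of_mul_eq_one {u v : PowerSeries ℂ} (h : u * v = 1) (h0 : coeff 0 u = 1)
    (hu : ∀ n, 0 < n → 0 ≤ -coeff n u) : NN v := by
  intro n
  induction n using Nat.strong_induction_on with
  | _ n ih =>
    have h1 := congrArg (coeff n) h
    rw [coeff_mul, coeff_one] at h1
    have hmem : ((0, n) : ℕ × ℕ) ∈ Finset.HasAntidiagonal.antidiagonal n := by simp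
    rw [← Finset.add_sum_erase _ _ hmem, h0, one_mul] at h1
    have h2 : coeff n v = (if n = 0 then (1 : ℂ) else 0)
        + ∑ kl ∈ (Finset.HasAntidiagonal.antidiagonal n).erase (0, n), (-coeff kl.1 u) * coeff kl.2 v := by
      rw [← h1]
      simp only [neg_mul, Finset.sum_neg_distrib]
      ring
    rw [h2]
    apply add_nonneg
    · split_ifs
      · exact zero_le_one
      · exact le_refl _
    · apply Finset.sum_nonneg
      rintro ⟨k, l⟩ hkl
      rw [Finset.mem_erase, Finset.HasAntidiagonal.mem_antidiagonal] at hkl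
      obtain ⟨h3, h4⟩ := hkl
      simp only at h4 ⊢
      have hk : 0 < k := by
        rcases Nat.eq_zero_or_pos k with hk | hk
        · exfalso
          apply h3
          subst hk
          rw [zero_add] at h4
          rw [h4]
        · exact hk
      exact mul_nonneg (hu k hk) (ih l (by omega))

lemma cC_nn : NN cC := by
  apply nn_of_mul_eq_one e6_mul_cC
  · rw [coeff_zero_eq_constantCoeff_apply, e6_cc]
  · intro n hn
    rw [e6_coeff, if_neg hn.ne', neg_mul, neg_neg]
    positivity

lemma e4_nn : NN e4 := by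
  intro n
  rw [e4_coeff]
  split_ifs
  · exact zero_le_one
  · positivity

/-- `q/t` where `t = Δ/E₆²`. -/
noncomputable def uU : PowerSeries ℂ := bB * e6 ^ 2
/-- `E₄²/E₆`. -/
noncomputable def rR : PowerSeries ℂ := e4 ^ 2 * cC

lemma rR_cc : constantCoeff rR = 1 := by
  rw [rR, map_mul, map_pow, e4_cc, cC_cc]; norm_num

/-- `R U = U - θU`. -/
lemma rR_mul_uU : rR * uU = uU - theta uU := by
  rw [rR, uU, theta_mul, theta_bB, pow_two e6, theta_mul, theta_e6]
  have h := e6_mul_cC
  simp only [smul_eq_C_mul]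
  have h2 : (C (2 : ℂ)⁻¹ : PowerSeries ℂ) + C (2 : ℂ)⁻¹ = 1 := by
    rw [← map_add]; norm_num
  linear_combination (bB * e6 * e4 ^ 2) * h + (bB * e6 * (e2 * e6 - e4 ^ 2)) * h2

lemma theta_pow (p : PowerSeries ℂ) (n : ℕ) : theta (p ^ (n + 1)) = ((n : ℂ) + 1) • (p ^ n * theta p) := by
  induction n with
  | zero => simp
  | succ n ih =>
    rw [pow_succ, theta_mul, ih]
    simp only [smul_eq_C_mul, Nat.cast_add, Nat.cast_one, map_add, map_one]
    ring

/-- The coefficient extraction lemma. -/
lemma extract (n : ℕ) (hn : n ≠ 0) : coeff n (uU ^ n * rR) = 0 := by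
  obtain ⟨m, rfl⟩ := Nat.exists_eq_succ_of_ne_zero hn
  have h1 : uU ^ (m + 1) * rR = uU ^ (m + 1) - uU ^ m * theta uU := by
    rw [pow_succ]
    linear_combination uU ^ m * rR_mul_uU
  have h2 := congrArg (coeff (m + 1)) (theta_pow uU m)
  rw [theta_coeff, coeff_smul, smul_eq_mul] at h2
  have h3 : ((m : ℂ) + 1) ≠ 0 := by exact_mod_cast Nat.succ_ne_zero m
  push_cast at h2
  have h4 := mul_left_cancel₀ h3 h2
  rw [Nat.succ_eq_add_one, h1, map_sub, h4, sub_self]

end Pool.Agent.H34.Miller
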