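import Mathlib
import Pool.Agent.H34.Miller.Alg

/-!
Structure of the spaces `M_k`, in terms of polynomials in `w = E₆²/Δ = j - 1728`.
-/

namespace Pool.Agent.H34.Miller

open PowerSeries ModularForm
open UpperHalfPlane hiding I
open scoped MatrixGroups ComplexOrder

/-- The q-series of `Δ^ℓ E₄^a E₆^b G(E₆²/Δ)`. -/
noncomputable def qser (ℓ a b : ℕ) (G : ℕ → ℂ) : PowerSeries ℂ :=
  (∑ i ∈ Finset.range (ℓ + 1), C (G i) * (e6 ^ (2 * i) * dd ^ (ℓ - i))) * (e4 ^ a * e6 ^ b)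

/-- The dual series. -/
noncomputable def wser (ℓ a b s : ℕ) : PowerSeries ℂ :=
  bB ^ (ℓ - s) * (e4 ^ (2 - a) * e6 ^ (1 - b) * cC ^ (2 * s + 2))

lemma extraction (ℓ a b s : ℕ) (ha : a ≤ 2) (hb : b ≤ 1) (hs : s ≤ ℓ) (G : ℕ → ℂ) :
    coeff (ℓ - s) (qser ℓ a b G * wser ℓ a b s) = G s := by
  have h1 : qser ℓ a b G * wser ℓ a b s = ∑ i ∈ Finset.range (ℓ + 1), C (G i) *
      (X ^ (ℓ - i) * (e6 ^ (2 * i) * aA ^ (ℓ - i) * bB ^ (ℓ - s) * (e4 ^ 2 * e6 * cC ^ (2 * s + 2)))) := by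
    rw [qser, wser, ← X_mul_aA, Finset.sum_mul, Finset.sum_mul]
    apply Finset.sum_congr rfl
    intro i _
    have h2 : e4 ^ 2 = e4 ^ a * e4 ^ (2 - a) := by rw [← pow_add]; congr 1; omega
    have h3 : e6 = e6 ^ b * e6 ^ (1 - b) := by
      rw [← pow_add]
      have : b + (1 - b) = 1 := by omega
      rw [this, pow_one]
    rw [mul_pow, h2]
    calc C (G i) * (e6 ^ (2 * i) * (X ^ (ℓ - i) * aA ^ (ℓ - i))) * (e4 ^ a * e6 ^ b) *
          (bB ^ (ℓ - s) * (e4 ^ (2 - a) * e6 ^ (1 - b) * cC ^ (2 * s + 2)))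
        = C (G i) * (X ^ (ℓ - i) * (e6 ^ (2 * i) * aA ^ (ℓ - i) * bB ^ (ℓ - s) *
          (e4 ^ a * e4 ^ (2 - a) * (e6 ^ b * e6 ^ (1 - b)) * cC ^ (2 * s + 2)))) := by ring
      _ = _ := by rw [← h3]
  rw [h1, map_sum]
  rw [Finset.sum_eq_single s]
  · -- i = s
    rw [coeff_C_mul, coeff_X_pow_mul', if_pos le_rfl, Nat.sub_self]
    have h2 : e6 ^ (2 * s) * aA ^ (ℓ - s) * bB ^ (ℓ - s) * (e4 ^ 2 * e6 * cC ^ (2 * s + 2)) = rR := by
      calc e6 ^ (2 * s) * aA ^ (ℓ - s) * bB ^ (ℓ - s) * (e4 ^ 2 * e6 * cC ^ (2 * s + 2))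
          = (aA * bB) ^ (ℓ - s) * (e6 * cC) ^ (2 * s + 1) * (e4 ^ 2 * cC) := by
            rw [mul_pow, mul_pow]; ring
        _ = rR := by rw [aA_mul_bB, e6_mul_cC, one_pow, one_pow, one_mul, one_mul, rR]
    rw [h2, coeff_zero_eq_constantCoeff_apply, rR_cc, mul_one]
  · intro i hi his
    rw [Finset.mem_range] at hi
    rw [coeff_C_mul, coeff_X_pow_mul']
    split_ifs with hle
    · -- i > s
      obtain ⟨n, hn⟩ : ∃ n, i = s + n := ⟨i - s, by omega⟩
      have hn0 : n ≠ 0 := by omega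
      have h3 : ℓ - s - (ℓ - i) = n := by omega
      have h4 : ℓ - s = (ℓ - i) + n := by omega
      have h2 : e6 ^ (2 * i) * aA ^ (ℓ - i) * bB ^ (ℓ - s) * (e4 ^ 2 * e6 * cC ^ (2 * s + 2)) = uU ^ n * rR := by
        calc e6 ^ (2 * i) * aA ^ (ℓ - i) * bB ^ (ℓ - s) * (e4 ^ 2 * e6 * cC ^ (2 * s + 2))
            = (aA * bB) ^ (ℓ - i) * (e6 * cC) ^ (2 * s + 1) * (bB * e6 ^ 2) ^ n * (e4 ^ 2 * cC) := by
              rw [h4, hn]
              rw [mul_pow, mul_pow, mul_pow]; ring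
          _ = uU ^ n * rR := by
              rw [aA_mul_bB, e6_mul_cC, one_pow, one_pow, one_mul, one_mul, rR, uU]
      rw [h3, h2, extract n hn0, mul_zero]
    · rw [mul_zero]
  · intro h
    exact absurd (Finset.mem_range.2 (by omega)) h

/-- `w = E₆²/Δ`. -/
noncomputable def wf (τ : ℍ) : ℂ := E₆ τ ^ 2 / ModularForm.discriminant τ

/-- The function `Δ^ℓ E₄^a E₆^b G(w)`. -/
noncomputable def phi (ℓ a b : ℕ) (G : Polynomial ℂ) (τ : ℍ) : ℂ :=
  ModularForm.discriminant τ ^ ℓ * (E₄ τ ^ a * E₆ τ ^ b) * G.eval (wf τ)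

lemma phi_eq_sum (ℓ a b : ℕ) (G : Polynomial ℂ) (hG : G.natDegree ≤ ℓ) :
    phi ℓ a b G = (∑ i ∈ Finset.range (ℓ + 1), G.coeff i •
      ((E₆ : ℍ → ℂ) ^ (2 * i) * ModularForm.discriminant ^ (ℓ - i))) * ((E₄ : ℍ → ℂ) ^ a * (E₆ : ℍ → ℂ) ^ b) := by
  ext τ
  rw [phi, Polynomial.eval_eq_sum_range' (Nat.lt_succ_of_le hG), Pi.mul_apply, Finset.sum_apply,
    Finset.mul_sum, Finset.sum_mul]
  apply Finset.sum_congr rfl
  intro i hi
  rw [Finset.mem_range] at hi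
  simp only [Pi.smul_apply, Pi.mul_apply, Pi.pow_apply, smul_eq_mul, wf]
  have hd := discriminant_ne_zero τ
  have h1 : ModularForm.discriminant τ ^ ℓ = ModularForm.discriminant τ ^ (ℓ - i) * ModularForm.discriminant τ ^ i := by
    rw [← pow_add]; congr 1; omega
  rw [h1, div_pow, ← pow_mul]
  field_simp

lemma rep_pow {f : ℍ → ℂ} {p : PowerSeries ℂ} (h : Rep f p) (n : ℕ) : Rep (f ^ n) (p ^ n) := by
  induction n with
  | zero =>
    rw [pow_zero, pow_zero]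
    intro τ
    have := hasSum_ite_eq (0 : ℕ) (1 : ℂ)
    convert! this using 1
    ext n
    rw [coeff_one]
    split_ifs with h
    · subst h; simp
    · simp
  | succ n ih => rw [pow_succ, pow_succ]; exact ih.mul h

lemma rep_sum {ι : Type*} (s : Finset ι) (f : ι → ℍ → ℂ) (p : ι → PowerSeries ℂ)
    (h : ∀ i ∈ s, Rep (f i) (p i)) : Rep (∑ i ∈ s, f i) (∑ i ∈ s, p i) := by
  classical
  induction s using Finset.induction_on with
  | empty => intro τ; simp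
  | insert a s ha ih =>
    rw [Finset.sum_insert ha, Finset.sum_insert ha]
    exact (h a (Finset.mem_insert_self a s)).add (ih (fun i hi => h i (Finset.mem_insert_of_mem hi)))

lemma rep_phi (ℓ a b : ℕ) (G : Polynomial ℂ) (hG : G.natDegree ≤ ℓ) :
    Rep (phi ℓ a b G) (qser ℓ a b G.coeff) := by
  rw [phi_eq_sum ℓ a b G hG, qser]
  apply Rep.mul
  · apply rep_sum
    intro i _
    rw [← smul_eq_C_mul]
    exact ((rep_pow rep_e6 _).mul (rep_pow rep_dd _)).smul _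
  · exact (rep_pow rep_e4 _).mul (rep_pow rep_e6 _)

lemma isMF_phi (ℓ a b : ℕ) (G : Polynomial ℂ) (hG : G.natDegree ≤ ℓ) :
    IsMF (12 * ℓ + (4 * a + 6 * b)) (phi ℓ a b G) := by
  rw [phi_eq_sum ℓ a b G hG]
  apply IsMF.mul
  · apply IsMF.sum
    intro i hi
    rw [Finset.mem_range] at hi
    apply IsMF.smul
    refine ((isMF_E6.pow _).mul (isMF_discriminant.pow _)).cast ?_
    push_cast
    rw [Nat.cast_sub (by omega)]
    ring
  · refine ((isMF_E4.pow _).mul (isMF_E6.pow _)).cast ?_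
    ring

lemma base_dim (a b : ℕ) (ha : a ≤ 2) (hb : b ≤ 1) (f : ℍ → ℂ) (hf : IsMF (4 * a + 6 * b) f) :
    ∃ c : ℂ, f = c • ((E₄ : ℍ → ℂ) ^ a * (E₆ : ℍ → ℂ) ^ b) := by
  have hne : (E₄ : ℍ → ℂ) ^ a * (E₆ : ℍ → ℂ) ^ b ≠ 0 := by
    intro h
    have h1 := (rep_pow rep_e4 a).mul (rep_pow rep_e6 b)
    rw [h] at h1
    have h2 : Rep (0 : ℍ → ℂ) 0 := by
      intro τ; simp
    have h3 := h1.unique h2
    have h4 := congrArg constantCoeff h3
    rw [map_mul, map_pow, map_pow, e4_cc, e6_cc, map_zero] at h4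
    norm_num at h4
  have hg : IsMF (4 * a + 6 * b) ((E₄ : ℍ → ℂ) ^ a * (E₆ : ℍ → ℂ) ^ b) :=
    ((isMF_E4.pow _).mul (isMF_E6.pow _)).cast (by ring)
  apply one_dim (4 * a + 6 * b) ⟨2 * a + 3 * b, by ring⟩ _ _ _ (hf.cast (by push_cast; ring))
    (hg.cast (by push_cast; ring)) hne
  interval_cases a <;> interval_cases b <;> simp [Nat.ModEq]

/-- Every level one form of weight `12ℓ + 4a + 6b` is `Δ^ℓ E₄^a E₆^b G(w)`. -/
theorem structure_thm (ℓ a b : ℕ) (ha : a ≤ 2) (hb : b ≤ 1) (f : ℍ → ℂ)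
    (hf : IsMF (12 * ℓ + (4 * a + 6 * b)) f) :
    ∃ G : Polynomial ℂ, G.natDegree ≤ ℓ ∧ f = phi ℓ a b G := by
  induction ℓ generalizing f with
  | zero =>
    obtain ⟨c, hc⟩ := base_dim a b ha hb f (hf.cast (by push_cast; ring))
    refine ⟨Polynomial.C c, by simp, ?_⟩
    rw [hc]
    ext τ
    simp only [phi, Pi.smul_apply, Pi.mul_apply, Pi.pow_apply, smul_eq_mul, pow_zero, one_mul,
      Polynomial.eval_C]
    ring
  | succ ℓ ih =>
    obtain ⟨F0, hF0⟩ := hf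
    set c := PowerSeries.coeff 0 (qExpansion 1 f) with hc
    -- subtract a multiple of a form with nonzero constant term
    have hg1 : IsMF (12 * ((ℓ + 1 : ℕ) : ℤ) + (4 * a + 6 * b)) (phi (ℓ + 1) a b (Polynomial.monomial (ℓ + 1) 1)) :=
      isMF_phi _ a b _ (by rw [Polynomial.natDegree_monomial]; simp)
    have hf' : IsMF (12 * ((ℓ + 1 : ℕ) : ℤ) + (4 * a + 6 * b)) f := ⟨F0, hF0⟩
    have hsub := hf'.sub (hg1.smul c)
    obtain ⟨S, hS⟩ := hsub
    have hrep1 : Rep (phi (ℓ + 1) a b (Polynomial.monomial (ℓ + 1) 1)) _ :=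
      rep_phi (ℓ + 1) a b _ (by rw [Polynomial.natDegree_monomial]; simp)
    have hcc : constantCoeff (qser (ℓ + 1) a b (Polynomial.monomial (ℓ + 1) (1 : ℂ)).coeff) = 1 := by
      rw [qser, map_mul, map_sum, map_mul, map_pow, map_pow, e4_cc, e6_cc, one_pow, one_pow, mul_one,
        mul_one, Finset.sum_eq_single (ℓ + 1)]
      · simp [e6_cc]
      · intro i _ hi
        rw [Polynomial.coeff_monomial, if_neg (Ne.symm hi)]
        simp
      · intro h
        exact absurd (Finset.mem_range.2 (by omega)) h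
    have hcoef : (qExpansion 1 (S : ℍ → ℂ)).coeff 0 = 0 := by
      have h1 : Rep (S : ℍ → ℂ) (qExpansion 1 f - c • qser (ℓ + 1) a b (Polynomial.monomial (ℓ + 1) (1 : ℂ)).coeff) := by
        rw [hS]
        exact hf'.rep.sub (hrep1.smul c)
      rw [IsMF.qExpansion_eq ⟨S, rfl⟩ h1, map_sub, coeff_smul, ← hc, coeff_zero_eq_constantCoeff_apply, hcc]
      simp
    set T := CuspForm.discriminantEquiv (toCuspForm S hcoef) with hT
    have hTmul : ∀ z : ℍ, ModularForm.discriminant z * T z = S z := by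
      intro z
      rw [hT, discriminant_mul_discriminantEquiv_apply]
      rfl
    obtain ⟨G, hG, hGT⟩ := ih (T : ℍ → ℂ) (IsMF.cast ⟨T, rfl⟩ (by push_cast; ring))
    refine ⟨G + Polynomial.monomial (ℓ + 1) c, ?_, ?_⟩
    · refine le_trans (Polynomial.natDegree_add_le _ _) (max_le (by omega) (Polynomial.natDegree_monomial_le _))
    · ext τ
      have h1 : f τ = S τ + c * phi (ℓ + 1) a b (Polynomial.monomial (ℓ + 1) 1) τ := by
        rw [hS]
        simp only [Pi.sub_apply, Pi.smul_apply, smul_eq_mul]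
        ring
      rw [h1, ← hTmul, hGT]
      simp only [phi, Polynomial.eval_add, Polynomial.eval_monomial]
      ring

end Pool.Agent.H34.Miller
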