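import Mathlib
import Pool.Agent.H34.Miller.Struct

/-!
Existence and uniqueness of the Miller forms; the coefficients of their Faber polynomials.
-/

namespace Pool.Agent.H34.Miller

open PowerSeries ModularForm
open UpperHalfPlane hiding I
open scoped MatrixGroups ComplexOrder

lemma qser_add (ℓ a b : ℕ) (G G' : ℕ → ℂ) : qser ℓ a b (G + G') = qser ℓ a b G + qser ℓ a b G' := by
  rw [qser, qser, qser, ← add_mul, ← Finset.sum_add_distrib]
  congr 1
  apply Finset.sum_congr rfl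
  intro i _
  rw [Pi.add_apply, map_add, add_mul]

lemma qser_smul (ℓ a b : ℕ) (c : ℂ) (G : ℕ → ℂ) : qser ℓ a b (c • G) = c • qser ℓ a b G := by
  rw [qser, qser, ← smul_mul_assoc, Finset.smul_sum]
  congr 1
  apply Finset.sum_congr rfl
  intro i _
  rw [Pi.smul_apply, smul_eq_mul, map_mul, mul_assoc, smul_eq_C_mul]

lemma qser_congr (ℓ a b : ℕ) (G G' : ℕ → ℂ) (h : ∀ i ≤ ℓ, G i = G' i) : qser ℓ a b G = qser ℓ a b G' := by
  rw [qser, qser]
  congr 1
  apply Finset.sum_congr rfl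
  intro i hi
  rw [Finset.mem_range] at hi
  rw [h i (by omega)]

/-- The coefficients of `G` from the first coefficients of the q-series. -/
lemma coeff_of_agree (ℓ a b : ℕ) (ha : a ≤ 2) (hb : b ≤ 1) (G : ℕ → ℂ) (m : ℕ) (hm : m ≤ ℓ) (c : ℂ)
    (h : ∀ i ≤ ℓ, coeff i (qser ℓ a b G) = if i = m then c else 0) (s : ℕ) (hs : s ≤ ℓ) :
    G s = if s ≤ ℓ - m then c * coeff (ℓ - m - s) (wser ℓ a b s) else 0 := by
  rw [← extraction ℓ a b s ha hb hs G, coeff_mul]
  split_ifs with hsm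
  · rw [Finset.sum_eq_single (m, ℓ - m - s)]
    · rw [h m hm, if_pos rfl]
    · rintro ⟨i, j⟩ hij hne
      rw [Finset.HasAntidiagonal.mem_antidiagonal] at hij
      simp only at hij ⊢
      rw [h i (by omega), if_neg, zero_mul]
      rintro rfl
      apply hne
      have : j = ℓ - i - s := by omega
      rw [this]
    · intro hne
      exfalso
      apply hne
      rw [Finset.HasAntidiagonal.mem_antidiagonal]
      simp only
      omega
  · apply Finset.sum_eq_zero
    rintro ⟨i, j⟩ hij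
    rw [Finset.HasAntidiagonal.mem_antidiagonal] at hij
    simp only at hij ⊢
    rw [h i (by omega), if_neg, zero_mul]
    rintro rfl
    omega

lemma eq_zero_of_qser (ℓ a b : ℕ) (ha : a ≤ 2) (hb : b ≤ 1) (G : ℕ → ℂ)
    (h : ∀ i ≤ ℓ, coeff i (qser ℓ a b G) = 0) (s : ℕ) (hs : s ≤ ℓ) : G s = 0 := by
  have h1 := coeff_of_agree ℓ a b ha hb G 0 (Nat.zero_le _) 0 (fun i hi => by rw [h i hi]; simp) s hs
  rw [h1]
  simp

/-- Extension by zero. -/
noncomputable def extz (ℓ : ℕ) (g : Fin (ℓ + 1) → ℂ) : ℕ → ℂ := fun s => if h : s < ℓ + 1 then g ⟨s, h⟩ else 0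

/-- The map to the first `ℓ + 1` coefficients. -/
noncomputable def coefMap (ℓ a b : ℕ) : (Fin (ℓ + 1) → ℂ) →ₗ[ℂ] (Fin (ℓ + 1) → ℂ) where
  toFun g := fun i => coeff (i : ℕ) (qser ℓ a b (extz ℓ g))
  map_add' g g' := by
    have h : extz ℓ (g + g') = extz ℓ g + extz ℓ g' := by
      ext s
      simp only [extz, Pi.add_apply]
      split_ifs <;> simp
    ext i
    rw [h, qser_add, map_add, Pi.add_apply]
  map_smul' c g := by
    have h : extz ℓ (c • g) = c • extz ℓ g := by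
      ext s
      simp only [extz, Pi.smul_apply]
      split_ifs <;> simp
    ext i
    rw [h, qser_smul, coeff_smul, Pi.smul_apply, RingHom.id_apply]

lemma coefMap_surjective (ℓ a b : ℕ) (ha : a ≤ 2) (hb : b ≤ 1) : Function.Surjective (coefMap ℓ a b) := by
  rw [← LinearMap.injective_iff_surjective, ← LinearMap.ker_eq_bot, LinearMap.ker_eq_bot']
  intro g hg
  ext i
  have h1 : ∀ n ≤ ℓ, coeff n (qser ℓ a b (extz ℓ g)) = 0 := by
    intro n hn
    exact congrFun hg ⟨n, by omega⟩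
  have h2 := eq_zero_of_qser ℓ a b ha hb (extz ℓ g) h1 i (by omega)
  rw [extz, dif_pos i.2] at h2
  simpa using h2

/-- Existence of a polynomial with prescribed first coefficients. -/
lemma exists_poly (ℓ a b : ℕ) (ha : a ≤ 2) (hb : b ≤ 1) (m : ℕ) :
    ∃ G : Polynomial ℂ, G.natDegree ≤ ℓ ∧ ∀ i ≤ ℓ, coeff i (qser ℓ a b G.coeff) = if i = m then 1 else 0 := by
  obtain ⟨g, hg⟩ := coefMap_surjective ℓ a b ha hb (fun i => if (i : ℕ) = m then 1 else 0)
  refine ⟨∑ i ∈ Finset.range (ℓ + 1), Polynomial.monomial i (extz ℓ g i), ?_, ?_⟩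
  · apply Polynomial.natDegree_sum_le_of_forall_le
    intro i hi
    rw [Finset.mem_range] at hi
    exact le_trans (Polynomial.natDegree_monomial_le _) (by omega)
  · intro i hi
    rw [qser_congr ℓ a b _ (extz ℓ g)]
    · exact congrFun hg ⟨i, by omega⟩
    · intro s hs
      rw [Polynomial.finsetSum_coeff, Finset.sum_eq_single s]
      · rw [Polynomial.coeff_monomial, if_pos rfl]
      · intro t _ ht
        rw [Polynomial.coeff_monomial, if_neg ht]
      · intro h
        exact absurd (Finset.mem_range.2 (by omega)) h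

/-- Uniqueness of the polynomial. -/
lemma poly_eq_zero (ℓ a b : ℕ) (ha : a ≤ 2) (hb : b ≤ 1) (G : Polynomial ℂ) (hG : G.natDegree ≤ ℓ)
    (h : ∀ i ≤ ℓ, coeff i (qser ℓ a b G.coeff) = 0) : G = 0 := by
  ext s
  rcases le_or_gt s ℓ with hs | hs
  · rw [eq_zero_of_qser ℓ a b ha hb _ h s hs, Polynomial.coeff_zero]
  · rw [Polynomial.coeff_eq_zero_of_natDegree_lt (by omega), Polynomial.coeff_zero]

lemma phi_sub (ℓ a b : ℕ) (G G' : Polynomial ℂ) : phi ℓ a b (G - G') = phi ℓ a b G - phi ℓ a b G' := by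
  ext τ
  simp only [phi, Pi.sub_apply, Polynomial.eval_sub]
  ring

lemma phi_injective (ℓ a b : ℕ) (ha : a ≤ 2) (hb : b ≤ 1) (G G' : Polynomial ℂ)
    (h : phi ℓ a b G = phi ℓ a b G') : G = G' := by
  rw [← sub_eq_zero]
  set H := G - G' with hH
  have h1 : phi ℓ a b H = 0 := by rw [hH, phi_sub, h, sub_self]
  have h2 : phi (ℓ + H.natDegree) a b H = 0 := by
    ext τ
    have h3 := congrFun h1 τ
    simp only [phi, Pi.zero_apply] at h3 ⊢
    rw [pow_add]
    linear_combination (ModularForm.discriminant τ ^ H.natDegree) * h3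
  have h4 := rep_phi (ℓ + H.natDegree) a b H (by omega)
  rw [h2] at h4
  have h5 : Rep (0 : ℍ → ℂ) 0 := by intro τ; simp
  have h6 := h4.unique h5
  exact poly_eq_zero (ℓ + H.natDegree) a b ha hb H (by omega) (fun i _ => by rw [h6, map_zero])

lemma wser_nn (ℓ a b s : ℕ) (hb : b ≤ 1) : NN (wser ℓ a b s) := by
  rw [wser]
  apply (bB_pos.nn.pow _).mul
  rw [mul_assoc]
  apply (e4_nn.pow _).mul
  interval_cases b
  · have h : e6 ^ (1 - 0) * cC ^ (2 * s + 2) = cC ^ (2 * s + 1) := by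
      rw [Nat.sub_zero, pow_one, pow_succ cC (2 * s + 1)]
      calc e6 * (cC ^ (2 * s + 1) * cC) = cC ^ (2 * s + 1) * (e6 * cC) := by ring
        _ = cC ^ (2 * s + 1) := by rw [e6_mul_cC, mul_one]
    rw [h]
    exact cC_nn.pow _
  · rw [Nat.sub_self, pow_zero, one_mul]
    exact cC_nn.pow _

lemma wser_cc (ℓ a b s : ℕ) : constantCoeff (wser ℓ a b s) = 1 := by
  simp only [wser, map_mul, map_pow, bB_cc, e4_cc, e6_cc, cC_cc, one_pow, mul_one]

lemma wser_zero_pos (ℓ a b : ℕ) (hb : b ≤ 1) (hℓ : ℓ ≠ 0) : PP (wser ℓ a b 0) := by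
  have h1 := wser_nn 0 a b 0 hb
  have h2 : wser ℓ a b 0 = bB ^ ℓ * wser 0 a b 0 := by
    rw [wser, wser]; simp
  rw [h2]
  apply (bB_pos.pow ℓ hℓ).mul_nn h1
  rw [coeff_zero_eq_constantCoeff_apply, wser_cc]
  exact one_pos

/-- The main positivity statement. -/
lemma miller_coeffs (ℓ a b m : ℕ) (ha : a ≤ 2) (hb : b ≤ 1) (hm : m ≤ ℓ) (G : Polynomial ℂ)
    (hG : G.natDegree ≤ ℓ) (h : ∀ i ≤ ℓ, coeff i (qser ℓ a b G.coeff) = if i = m then 1 else 0) :
    G.Monic ∧ G.natDegree = ℓ - m ∧ (∀ s, 0 ≤ G.coeff s) ∧ 0 < G.coeff 0 := by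
  have key := coeff_of_agree ℓ a b ha hb G.coeff m hm 1 h
  have htop : G.coeff (ℓ - m) = 1 := by
    rw [key (ℓ - m) (by omega), if_pos le_rfl, one_mul, Nat.sub_self,
      coeff_zero_eq_constantCoeff_apply, wser_cc]
  have hle : G.natDegree ≤ ℓ - m := by
    rw [Polynomial.natDegree_le_iff_coeff_eq_zero]
    intro s hs
    rcases le_or_gt s ℓ with h1 | h1
    · rw [key s h1, if_neg (by omega)]
    · exact Polynomial.coeff_eq_zero_of_natDegree_lt (by omega)
  have hdeg : G.natDegree = ℓ - m := by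
    apply le_antisymm hle
    apply Polynomial.le_natDegree_of_ne_zero
    rw [htop]
    exact one_ne_zero
  refine ⟨?_, hdeg, ?_, ?_⟩
  · rw [Polynomial.Monic, Polynomial.leadingCoeff, hdeg, htop]
  · intro s
    rcases le_or_gt s ℓ with h1 | h1
    · rw [key s h1]
      split_ifs
      · rw [one_mul]
        exact wser_nn ℓ a b s hb _
      · exact le_refl _
    · rw [Polynomial.coeff_eq_zero_of_natDegree_lt (by omega)]
  · rw [key 0 (Nat.zero_le _), if_pos (Nat.zero_le _), one_mul, Nat.sub_zero]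
    by_cases hℓ : ℓ = 0
    · subst hℓ
      rw [Nat.zero_sub, coeff_zero_eq_constantCoeff_apply, wser_cc]
      exact one_pos
    · exact wser_zero_pos ℓ a b hb hℓ _

lemma eval_pos (G : Polynomial ℂ) (h : ∀ s, 0 ≤ G.coeff s) (h0 : 0 < G.coeff 0) (y : ℝ) (hy : 0 ≤ y) :
    0 < G.eval (y : ℂ) := by
  rw [Polynomial.eval_eq_sum_range, Finset.sum_range_succ', pow_zero, mul_one]
  apply add_pos_of_nonneg_of_pos
  · apply Finset.sum_nonneg
    intro i _
    apply mul_nonneg (h _)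
    exact pow_nonneg (by exact_mod_cast hy) _
  · exact h0

end Pool.Agent.H34.Miller
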