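import Mathlib
import Pool.Agent.H34.Miller.Exist

/-!
The imaginary axis.
-/

namespace Pool.Agent.H34.Miller

open PowerSeries ModularForm
open UpperHalfPlane hiding I
open scoped MatrixGroups ComplexOrder Real

/-- The real parameter `e^{-2π t}`. -/
noncomputable def rq (τ : ℍ) : ℝ := Real.exp (-(2 * π * τ.im))

lemma rq_pos (τ : ℍ) : 0 < rq τ := Real.exp_pos _

lemma coe_axis (τ : ℍ) (h : τ.re = 0) : (τ : ℂ) = Complex.I * (τ.im : ℂ) := by
  apply Complex.ext
  · simp; exact h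
  · simp

lemma qParam_axis (τ : ℍ) (h : τ.re = 0) : Function.Periodic.qParam 1 (τ : ℂ) = (rq τ : ℂ) := by
  rw [Function.Periodic.qParam, coe_axis τ h, rq, Complex.ofReal_exp]
  congr 1
  push_cast
  have := Complex.I_mul_I
  linear_combination (2 * (π : ℂ) * (τ.im : ℂ)) * this

/-- A series with real coefficients on the axis. -/
lemma axis_hasSum {f : ℍ → ℂ} {p : PowerSeries ℂ} (hf : Rep f p) (r : ℕ → ℝ) (hr : ∀ n, coeff n p = (r n : ℂ))
    (τ : ℍ) (h : τ.re = 0) : ∃ x : ℝ, f τ = (x : ℂ) ∧ HasSum (fun n => r n * rq τ ^ n) x := by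
  have h1 := hf τ
  rw [qParam_axis τ h] at h1
  have h2 : HasSum (fun n => ((r n * rq τ ^ n : ℝ) : ℂ)) (f τ) := by
    convert! h1 using 1
    ext n
    rw [hr]
    push_cast
    rfl
  have h3 := Complex.hasSum_re h2
  have h4 := Complex.hasSum_im h2
  simp only [Complex.ofReal_re, Complex.ofReal_im] at h3 h4
  have h5 := h4.unique hasSum_zero
  refine ⟨(f τ).re, ?_, h3⟩
  apply Complex.ext
  · simp
  · simpa using h5

lemma e4_axis (τ : ℍ) (h : τ.re = 0) : ∃ x : ℝ, E₄ τ = (x : ℂ) ∧ 0 < x := by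
  obtain ⟨x, hx, hs⟩ := axis_hasSum rep_e4
    (fun n => if n = 0 then 1 else 240 * (ArithmeticFunction.sigma 3 n : ℝ))
    (fun n => by rw [e4_coeff]; split_ifs <;> push_cast <;> rfl) τ h
  refine ⟨x, hx, ?_⟩
  have h1 := hasSum_lt (f := fun _ : ℕ => (0 : ℝ)) (i := 0) ?_ ?_ hasSum_zero hs
  · exact h1
  · intro n
    have hq := (rq_pos τ).le
    simp only
    split_ifs
    · positivity
    · positivity
  · simp

lemma e6_axis (τ : ℍ) (h : τ.re = 0) : ∃ x : ℝ, E₆ τ = (x : ℂ) ∧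
    HasSum (fun n => (if n = 0 then 1 else -504 * (ArithmeticFunction.sigma 5 n : ℝ)) * rq τ ^ n) x :=
  axis_hasSum rep_e6
    (fun n => if n = 0 then 1 else -504 * (ArithmeticFunction.sigma 5 n : ℝ))
    (fun n => by rw [e6_coeff]; split_ifs <;> push_cast <;> rfl) τ h

lemma e6_strict (τ τ' : ℍ) (h : τ.re = 0) (h' : τ'.re = 0) (hlt : τ.im < τ'.im) (x x' : ℝ)
    (hx : E₆ τ = (x : ℂ)) (hx' : E₆ τ' = (x' : ℂ)) : x < x' := by
  obtain ⟨y, hy, hs⟩ := e6_axis τ h
  obtain ⟨y', hy', hs'⟩ := e6_axis τ' h'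
  have e1 : x = y := by
    rw [hx] at hy; exact_mod_cast hy
  have e2 : x' = y' := by
    rw [hx'] at hy'; exact_mod_cast hy'
  rw [e1, e2]
  have hq : rq τ' < rq τ := by
    apply Real.exp_lt_exp.2
    have := Real.pi_pos
    nlinarith
  have hq0 := rq_pos τ'
  apply hasSum_lt (i := 1) _ _ hs hs'
  · intro n
    simp only
    split_ifs with hn
    · subst hn; simp
    · have h1 : rq τ' ^ n ≤ rq τ ^ n := pow_le_pow_left₀ hq0.le hq.le n
      have h2 : (0 : ℝ) ≤ (ArithmeticFunction.sigma 5 n : ℝ) := by positivity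
      nlinarith [mul_le_mul_of_nonneg_left h1 h2]
  · simp
    linarith

lemma e6_I : E₆ UpperHalfPlane.I = 0 := by
  have h1 : (E₆ : ℍ → ℂ) ∣[(6 : ℤ)] ModularGroup.S = (E₆ : ℍ → ℂ) :=
    E₆.slash_action_eq' _ ⟨ModularGroup.S, rfl⟩
  have h2 := congrFun h1 UpperHalfPlane.I
  rw [SlashInvariantForm.slash_S_apply] at h2
  have h3 : (UpperHalfPlane.mk (-(UpperHalfPlane.I : ℂ))⁻¹ UpperHalfPlane.I.im_inv_neg_coe_pos) = UpperHalfPlane.I := by
    ext
    simp [Complex.inv_I]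
  rw [h3] at h2
  have h4 : ((UpperHalfPlane.I : ℍ) : ℂ) ^ (-(6 : ℤ)) = -1 := by
    rw [UpperHalfPlane.coe_I, zpow_neg]
    have : (Complex.I) ^ (6 : ℤ) = -1 := by
      have : (Complex.I) ^ (6 : ℤ) = (Complex.I ^ 2) ^ 3 := by
        rw [← pow_mul]; norm_cast
      rw [this, Complex.I_sq]; norm_num
    rw [this]; norm_num
  rw [h4] at h2
  linear_combination (-(1 / 2 : ℂ)) * h2

lemma e6_axis_zero (τ : ℍ) (h : τ.re = 0) (h0 : E₆ τ = 0) : τ = UpperHalfPlane.I := by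
  have hI : E₆ UpperHalfPlane.I = ((0 : ℝ) : ℂ) := by rw [e6_I]; simp
  have h0' : E₆ τ = ((0 : ℝ) : ℂ) := by rw [h0]; simp
  have hre : UpperHalfPlane.I.re = 0 := by simp
  have him : τ.im = 1 := by
    rcases lt_trichotomy τ.im 1 with h1 | h1 | h1
    · exact absurd (e6_strict τ UpperHalfPlane.I h hre (by simpa using h1) 0 0 h0' hI) (lt_irrefl _)
    · exact h1
    · exact absurd (e6_strict UpperHalfPlane.I τ hre h (by simpa using h1) 0 0 hI h0') (lt_irrefl _)
  ext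
  rw [coe_axis τ h, him]
  simp

/-- `Δ` is a positive real on the axis. -/
lemma disc_axis (τ : ℍ) (h : τ.re = 0) : ∃ x : ℝ, ModularForm.discriminant τ = (x : ℂ) ∧ 0 < x := by
  -- eta is real
  have hconj : (starRingEnd ℂ) (ModularForm.eta (τ : ℂ)) = ModularForm.eta (τ : ℂ) := by
    rw [ModularForm.eta, map_mul]
    congr 1
    · rw [Function.Periodic.qParam, coe_axis τ h]
      rw [← Complex.exp_conj]
      congr 1
      simp only [map_div₀, map_mul, Complex.conj_I, Complex.conj_ofReal, map_ofNat]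
      ring
    · have hm : Multipliable (fun n => 1 - ModularForm.eta_q n (τ : ℂ)) :=
        multipliableLocallyUniformlyOn_eta.multipliable τ.2
      rw [hm.map_tprod (starRingEnd ℂ) Complex.continuous_conj]
      congr 1
      ext n
      rw [map_sub, map_one, ModularForm.eta_q_eq_cexp, ← Complex.exp_conj, coe_axis τ h]
      congr 2
      simp only [map_mul, map_add, map_one, Complex.conj_I, Complex.conj_ofReal, map_ofNat, map_natCast]
      ring
  rw [Complex.conj_eq_iff_real] at hconj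
  obtain ⟨y, hy⟩ := hconj
  refine ⟨y ^ 24, ?_, ?_⟩
  · rw [discriminant_apply, hy]; push_cast; rfl
  · have hy0 : y ≠ 0 := by
      rintro rfl
      have := ModularForm.eta_ne_zero τ.2
      rw [hy] at this
      simp at this
    positivity

lemma wf_axis (τ : ℍ) (h : τ.re = 0) : ∃ y : ℝ, wf τ = (y : ℂ) ∧ 0 ≤ y := by
  obtain ⟨d, hd, hd0⟩ := disc_axis τ h
  obtain ⟨x, hx, _⟩ := e6_axis τ h
  refine ⟨x ^ 2 / d, ?_, by positivity⟩
  rw [wf, hd, hx]
  push_cast
  rfl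

/-- `E₄^a E₆^b` vanishes on the axis only at `i`, if `b ≠ 0`. -/
lemma eis_axis (a b : ℕ) (τ : ℍ) (h : τ.re = 0) :
    E₄ τ ^ a * E₆ τ ^ b = 0 ↔ τ = UpperHalfPlane.I ∧ b ≠ 0 := by
  obtain ⟨x, hx, hx0⟩ := e4_axis τ h
  have h4 : E₄ τ ≠ 0 := by
    rw [hx]; exact_mod_cast hx0.ne'
  constructor
  · intro h0
    rcases mul_eq_zero.1 h0 with h1 | h1
    · exact absurd h1 (pow_ne_zero _ h4)
    · have hb : b ≠ 0 := by
        rintro rfl
        rw [pow_zero] at h1
        exact one_ne_zero h1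
      exact ⟨e6_axis_zero τ h (pow_eq_zero_iff hb |>.1 h1), hb⟩
  · rintro ⟨rfl, hb⟩
    rw [e6_I, zero_pow hb, mul_zero]

end Pool.Agent.H34.Miller
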